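import Mathlib
import Pool.Agent.R863.DK.Gon

/-!
# A minimal-degree map with preimages of lines of smaller gonality

Over an algebraically closed field of characteristic two let `X ⊂ ℙ² × ℙ²` be the smooth surface
`∑ xᵢ² yᵢ = ∑ xᵢ yᵢ² = 0` and let `ψ : X → ℙ²` be the first projection. Then `ψ` has degree two,
which is the smallest degree of a dominant rational map from `X` to `ℙ²` (that is, `X` is not
rational), and for a general line `L` the curve `C_L` is rational.
-/

set_option autoImplicit false

open MvPolynomial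

namespace Pool.Agent.Results.MP_83f7cc_ag.InseparableK3

open Pool.Agent.R863.DK

/-- Jacobian criterion: the subscheme `G = H = 0` of `ℙ² × ℙ²` is smooth of codimension two. At
every point the gradients of `G` and `H` (with respect to the six variables) are linearly
independent. -/
def IsSmoothIntersection {k : Type*} [Field k] (G H : BiPoly k) : Prop :=
  ∀ x y : Fin 3 → k, x ≠ 0 → y ≠ 0 → eval (Sum.elim x y) G = 0 → eval (Sum.elim x y) H = 0 →
    LinearIndependent k ![fun s => eval (Sum.elim x y) (pderiv s G),
      fun s => eval (Sum.elim x y) (pderiv s H)]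

theorem smooth (k : Type*) [Field k] [CharP k 2] : IsSmoothIntersection (F₁ k) (F₂ k) := by
  intro x y hx hy _ _
  have t2 : (2 : k) = 0 := two_zero
  rw [LinearIndependent.pair_iff]
  intro a b hab
  have g1 : ∀ i, eval (Sum.elim x y) (pderiv (Sum.inl i) (F₁ k)) = 0 := by
    intro i
    simp [F₁, map_sum, Derivation.leibniz, Derivation.leibniz_pow, pderiv_X, t2]
  have g2 : ∀ i, eval (Sum.elim x y) (pderiv (Sum.inr i) (F₁ k)) = x i ^ 2 := by
    intro i
    simp [F₁, map_sum, Derivation.leibniz, Derivation.leibniz_pow, pderiv_X, Pi.single_apply]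
  have g3 : ∀ i, eval (Sum.elim x y) (pderiv (Sum.inl i) (F₂ k)) = y i ^ 2 := by
    intro i
    simp [F₂, map_sum, Derivation.leibniz, Derivation.leibniz_pow, pderiv_X, Pi.single_apply]
  have g4 : ∀ i, eval (Sum.elim x y) (pderiv (Sum.inr i) (F₂ k)) = 0 := by
    intro i
    simp [F₂, map_sum, Derivation.leibniz, Derivation.leibniz_pow, pderiv_X, t2]
  constructor
  · obtain ⟨j, hj⟩ := Function.ne_iff.1 hx
    have h := congrFun hab (Sum.inr j)
    simp only [Pi.add_apply, Pi.smul_apply, smul_eq_mul, g2, g4, mul_zero, add_zero,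
      Pi.zero_apply] at h
    exact (mul_eq_zero.1 h).resolve_right (pow_ne_zero 2 hj)
  · obtain ⟨j, hj⟩ := Function.ne_iff.1 hy
    have h := congrFun hab (Sum.inl j)
    simp only [Pi.add_apply, Pi.smul_apply, smul_eq_mul, g1, g3, mul_zero, zero_add,
      Pi.zero_apply] at h
    exact (mul_eq_zero.1 h).resolve_right (pow_ne_zero 2 hj)

theorem result (k : Type*) [Field k] [IsAlgClosed k] [CharP k 2] :
    -- the surface is a smooth irreducible intersection of two hypersurfaces in `ℙ² × ℙ²`
    (IsBihom (F₁ k) 2 1 ∧ IsBihom (F₂ k) 1 2 ∧ IsSmoothIntersection (F₁ k) (F₂ k) ∧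
      IsIrred (surface k)) ∧
    -- the first projection has degree two, and this is the minimal degree
    ProjMinimal (surface k) 2 ∧
    -- the curve over a general line has gonality one
    ∃ Φ : MvPolynomial (Fin 3) k, (∃ n, Φ.IsHomogeneous n) ∧ Φ ≠ 0 ∧ ∀ l : Fin 3 → k,
      eval l Φ ≠ 0 → IsIrred (lineCurve l) ∧ HasGonality (lineCurve l) 1 := by
  refine ⟨⟨isBihom_F₁, isBihom_F₂, smooth k, irred_surface⟩, ⟨?_, inferInstance, indep_surface,
    finrank_two, least_surface⟩, Phi k, ⟨22, Phi_homog⟩, Phi_ne_zero, fun l hl =>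
      ⟨irred_line hl, nonempty_line hl, prime_line hl, ?_⟩⟩
  · by_contra h
    rw [Set.not_nonempty_iff_eq_empty] at h
    have h1 := (prime_surface (k := k)).ne_top
    apply h1
    unfold affIdeal
    rw [h]
    exact vanishingIdeal_empty
  · have := prime_line hl
    exact least_line hl

end Pool.Agent.Results.MP_83f7cc_ag.InseparableK3
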